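import Pool.Agent.X169.NI.Conv

/-!
# Isotopies of closed 4-manifolds through asymptotically linear homeomorphisms

Every implantation of a barbell in `S⁴` is joined to the identity by a path of homeomorphisms; the
question is whether it is always joined to the identity by a smooth path of diffeomorphisms. Let
`h_t : M → N` be a path of homeomorphisms of closed smooth 4-manifolds, for instance of `S⁴`, from
a diffeomorphism to a diffeomorphism. Suppose that near every point and every time, in smooth charts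
which may depend on the point and the time, the `h_t` are within a relative error `ε` of invertible
linear maps at all scales below some `r₀(ε)`, where the linear maps may depend on the point, on the
time and on the scale in an arbitrary way and only have locally bounded condition numbers. Then the
two diffeomorphisms are smoothly isotopic. The maps `h_t`, `0 < t < 1`, need not be differentiable,
or Lipschitz, anywhere.
-/

set_option autoImplicit false

open Set Filter Topology Metric Function
open scoped Manifold ContDiff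

namespace Pool.Agent.Results.MP_8e98f2_gt.AsymptoticallyLinearIsotopy

/-- `ℝ⁴` -/
abbrev R4 : Type := EuclideanSpace ℝ (Fin 4)

/-- `f : ℝ⁴ → ℝ⁴` is nearly linear at the points of norm at most `r₁` and at all scales up to `r₀`,
with error `ε` and condition numbers at most `K`: for all these points `p` and scales `r` there is a
linear map `T` that stretches by factors between some `l > 0` and `K * l` with
`f q = f p + T (q - p)` up to an error at most `ε * l * r` for `|q - p| ≤ r`. -/
def NearlyLinear (f : R4 → R4) (ε K r₁ r₀ : ℝ) : Prop :=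
  ∀ p : R4, ‖p‖ ≤ r₁ → ∀ r : ℝ, 0 < r → r ≤ r₀ → ∃ (T : R4 →L[ℝ] R4) (l : ℝ), 0 < l ∧
    (∀ v, l * ‖v‖ ≤ ‖T v‖ ∧ ‖T v‖ ≤ K * (l * ‖v‖)) ∧
    ∀ q, ‖q - p‖ ≤ r → ‖f q - f p - T (q - p)‖ ≤ ε * l * r

/-- the path `h_t`, `0 ≤ t ≤ 1`, is asymptotically linear at the time `s` and the point `x`: for a
parametrization `A` of a neighbourhood of `x` and a chart `ψ` of the target at `h_s x` and for some
`K` and `r > 0` the maps `ψ ∘ h_t ∘ A`, `t ∈ [0, 1]`, `|t - s| < r`, are, for every error `ε > 0`,
nearly linear with error `ε` and condition numbers at most `K` at the points of norm at most `r`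
and all small enough scales, uniformly in `t`. -/
def AsymptoticallyLinearAt {M N : Type} [TopologicalSpace M] [ChartedSpace R4 M]
    [TopologicalSpace N] [ChartedSpace R4 N] (h : ℝ → M → N) (s : ℝ) (x : M) : Prop :=
  ∃ (A : R4 → M) (ψ : N → R4) (K r : ℝ), A 0 = x ∧
    IsLocalDiffeomorphAt (𝓡 4) (𝓡 4) ∞ A 0 ∧ IsLocalDiffeomorphAt (𝓡 4) (𝓡 4) ∞ ψ (h s x) ∧
    0 < r ∧ ∀ ε : ℝ, 0 < ε → ∃ r₀ : ℝ, 0 < r₀ ∧ ∀ t ∈ Icc (0 : ℝ) 1, |t - s| < r →
      NearlyLinear (fun z => ψ (h t (A z))) ε K r r₀

/-- `φ` and `ψ` are smoothly isotopic: they are joined by a path of diffeomorphisms which is smooth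
in both variables -/
def SmoothlyIsotopic {M N : Type} [TopologicalSpace M] [ChartedSpace R4 M] [TopologicalSpace N]
    [ChartedSpace R4 N] (φ ψ : Diffeomorph (𝓡 4) (𝓡 4) M N ∞) : Prop :=
  ∃ H : ℝ → Diffeomorph (𝓡 4) (𝓡 4) M N ∞,
    ContMDiff (𝓘(ℝ, ℝ).prod (𝓡 4)) (𝓡 4) ∞ (fun p : ℝ × M => H p.1 p.2) ∧ H 0 = φ ∧ H 1 = ψ

theorem result (M N : Type) [TopologicalSpace M] [ChartedSpace R4 M] [IsManifold (𝓡 4) ∞ M]
    [TopologicalSpace N] [T2Space N] [CompactSpace N] [ChartedSpace R4 N] [IsManifold (𝓡 4) ∞ N]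
    (φ ψ : Diffeomorph (𝓡 4) (𝓡 4) M N ∞) (h : ℝ → M ≃ₜ N)
    (hc : Continuous fun p : ℝ × M => h p.1 p.2) (h0 : ∀ x, h 0 x = φ x)
    (h1 : ∀ x, h 1 x = ψ x)
    (hh : ∀ s ∈ Icc (0 : ℝ) 1, ∀ x, AsymptoticallyLinearAt (fun t x => h t x) s x) :
    SmoothlyIsotopic φ ψ := by
  have e0 : (h 0 : M → N) = φ := funext h0
  have e1 : (h 1 : M → N) = ψ := funext h1
  obtain ⟨G, hGs, hG, hG0, hG1⟩ := Pool.Agent.X169.NI.path_charts (n := 4) (by norm_num) h hc
    (fun x => by rw [e0]; exact φ.isLocalDiffeomorph x)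
    (fun x => by rw [e1]; exact ψ.isLocalDiffeomorph x) hh
  choose H hH using fun t => Pool.Agent.X169.NM.diffeo_of_LD (G t) (hG t).1 (hG t).2
  refine ⟨H, ?_, ?_, ?_⟩
  · simp only [hH]
    exact hGs
  · ext x
    rw [hH, hG0, h0]
  · ext x
    rw [hH, hG1, h1]

end Pool.Agent.Results.MP_8e98f2_gt.AsymptoticallyLinearIsotopy
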